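import Pool.Agent.Lib.MP_0a5adf_nt.TP.Defs
import Pool.Agent.Lib.MP_0a5adf_nt.H45.DecayDefs

/-!
Project TAO+ : statements of the modules.
-/

set_option autoImplicit false

namespace Pool.Agent.Lib.MP_0a5adf_nt.TP

open Finset

/-! ### Group W : words -/

/-- CAT. -/
def CatStatement : Prop :=
  ∀ (a b : ℕ) (A B : Finset ℕ), A ⊆ Icc 1 a → B ⊆ Icc 1 b →
    cat a A B ⊆ Icc 1 (a + b) ∧ (cat a A B).card = A.card + B.card ∧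
    (∀ q : ℕ, xz q (cat a A B) = xz q A + 3 ^ A.card * (2 : ZMod q)⁻¹ ^ a * xz q B) ∧
    xr (cat a A B) = xr A + 3 ^ A.card / 2 ^ a * xr B ∧
    (∀ x, x ≤ a → (x ∈ cat a A B ↔ x ∈ A)) ∧ (∀ x, 0 < x → (a + x ∈ cat a A B ↔ x ∈ B))

/-- FAMSPLIT: split after the `k`-th element. -/
def FamSplitStatement : Prop :=
  ∀ (M : Type) [AddCommMonoid M] (k k' c : ℕ) (g : Finset ℕ → M),
    ∑ S ∈ Fam (k + k') c, g S =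
      ∑ a ∈ range (c + 1), ∑ A ∈ Fam k a, ∑ B ∈ Fam k' (c - a), g (cat a A B)

/-- POWSPLIT: split a subset of `[1, i]` after the `k`-th element. -/
def PowSplitStatement : Prop :=
  ∀ (M : Type) [AddCommMonoid M] (k s i : ℕ) (g : Finset ℕ → M), k ≤ s →
    ∑ S ∈ powersetCard s (Icc 1 i), g S =
      ∑ a ∈ range (i + 1), ∑ A ∈ Fam k a, ∑ B ∈ powersetCard (s - k) (Icc 1 (i - a)),
        g (cat a A B)

/-- MASS (also the small cases of `Fam`). -/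
def MassStatement : Prop :=
  (∀ c, Fam 0 c = if c = 0 then {∅} else ∅) ∧ (∀ c, Fam 1 c = if c = 0 then ∅ else {{c}}) ∧
  (∀ (z : ℝ) (n c₁ : ℕ), 0 ≤ z → z < 1 →
    ∑ c ∈ range c₁, ((Fam n c).card : ℝ) * z ^ c ≤ (z / (1 - z)) ^ n)

/-- HEXP: expectation of `xr`. -/
def HexpStatement : Prop :=
  ∀ n c₁ : ℕ, ∑ c ∈ range c₁, (∑ S ∈ Fam n c, xr S) / 2 ^ c ≤ (n : ℝ) / 3

/-- DYN: affine formula for the iterates, and its converse. -/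
def DynStatement : Prop :=
  (∀ (d : Bool) (N i : ℕ), par d N i ⊆ Icc 1 i ∧ (par d N i).card = od d i N ∧
    2 ^ i * ((T d)^[i] N : ℤ) = 3 ^ (par d N i).card * (N : ℤ) + sg d * num i (par d N i)) ∧
  (∀ (d : Bool) (N M i : ℕ) (S : Finset ℕ), S ⊆ Icc 1 i →
    2 ^ i * (M : ℤ) = 3 ^ S.card * (N : ℤ) + sg d * num i S → (T d)^[i] N = M ∧ par d N i = S) ∧
  (∀ (i : ℕ) (S : Finset ℕ), S ⊆ Icc 1 i → num i S + 2 ^ i ≤ 3 ^ S.card * 2 ^ i) ∧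
  (∀ (i k : ℕ) (S : Finset ℕ), S ⊆ Icc 1 i →
    (2 : ZMod (3 ^ k)) ^ i * xz (3 ^ k) S = (num i S : ZMod (3 ^ k)))

/-- CNTPAR: equidistribution of the parity words in dyadic blocks. -/
def CntParStatement : Prop :=
  ∀ (d : Bool) (i l : ℕ) (F : Finset (Finset ℕ)), i ≤ l → F ⊆ (Icc 1 i).powerset →
    ((Ico (2 ^ l) (2 ^ (l + 1))).filter fun N => par d N i ∈ F).card = 2 ^ (l - i) * F.card

/-! ### Group P : estimates -/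

/-- HOEFF: Hoeffding for binomial coefficients. -/
def HoeffStatement : Prop :=
  ∀ (n : ℕ) (x : ℝ), 0 ≤ x →
    ∑ k ∈ (range (n + 1)).filter (fun k : ℕ => x ≤ |(k : ℝ) - n / 2|), (n.choose k : ℝ) ≤
      2 * 2 ^ n * Real.exp (-(2 * x ^ 2 / n))

open Classical in
/-- VISITS: expected number of visits of the walk to a short interval. -/
def VisitsStatement : Prop :=
  ∃ Cv : ℝ, 0 < Cv ∧ ∀ (x : ℝ) (n : ℕ),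
    ∑ u ∈ range n, ∑ v ∈ range (u + 1),
      (if x ≤ (u : ℝ) - th * v ∧ (u : ℝ) - th * v < x + 3 then (u.choose v : ℝ) / 2 ^ u else 0) ≤ Cv

/-- RES: sums of reciprocals in residue classes. -/
def ResStatement : Prop :=
  ∀ q k l r : ℕ, 0 < q → q ≤ 2 ^ k →
    ∑ M ∈ (blk k l).filter (fun M => M % q = r), (1 : ℝ) / M ≤ ((l : ℝ) + 1) / q

open Classical in
/-- BADN: numbers whose number of odd steps deviates at some time `≤ i`. -/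
def BadNStatement : Prop :=
  (∀ (d : Bool) (i L D : ℕ), i ≤ L →
    (((Ico (2 ^ L) (2 ^ (L + 1))).filter
      fun N => ∃ j ≤ i, (D : ℝ) < |2 * (od d j N : ℝ) - j|).card : ℝ) ≤
      2 ^ L * (((i : ℝ) + 1) * (2 * Real.exp (-((D : ℝ) ^ 2 / (2 * i)))))) ∧
  (∀ (d : Bool) (a l i D : ℕ), i ≤ a →
    ∑ N ∈ (blk a l).filter (fun N => ∃ j ≤ i, (D : ℝ) < |2 * (od d j N : ℝ) - j|), (1 : ℝ) / N ≤
      l * (((i : ℝ) + 1) * (2 * Real.exp (-((D : ℝ) ^ 2 / (2 * i))))))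

/-! ### Group F : Fourier decay (A2 and A3 are `H45.DecayStatement`, table `taoa_modules`) -/

/-- FREC: strip the first element. -/
def FrecStatement : Prop :=
  ∀ (n c : ℕ) (ξ : ZMod (3 ^ (n + 1))),
    Fc (n + 1) c ξ = ∑ a ∈ Icc 1 c, ZMod.stdAddChar (ξ * (2 : ZMod (3 ^ (n + 1)))⁻¹ ^ a) *
      Fc n (c - a) (ZMod.castHom (pow_dvd_pow 3 (Nat.le_succ n)) (ZMod (3 ^ n))
        (ξ * (2 : ZMod (3 ^ (n + 1)))⁻¹ ^ a)) / 2 ^ a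

/-- BRIDGE: the Fourier coefficient is bounded by the value of the column process. -/
def BridgeStatement : Prop :=
  ∀ (J B c : ℕ) (ξ : ZMod (3 ^ (2 * J))), 1 ≤ J → 3 ≤ B →
    ‖Fc (2 * J) c ξ‖ ≤ H45.Q (rho J ξ) J B J 0 + J * ((B : ℝ) + 1) / 2 ^ B

/-- COL. -/
def ColStatement : Prop :=
  ∀ (J : ℕ) (ξ : ZMod (3 ^ (2 * J))), 1 ≤ J → ¬ 3 ∣ ξ.val → H45.RhoData J (rho J ξ)

/-- FOURIER: decay of the Fourier coefficients. -/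
def FourierStatement : Prop :=
  ∀ A : ℕ, ∃ C : ℝ, 0 < C ∧ ∀ (n c : ℕ) (ξ : ZMod (3 ^ n)), 1 ≤ n → ¬ 3 ∣ ξ.val →
    ‖Fc n c ξ‖ ≤ C / (n : ℝ) ^ A

/-! ### Group B : mixing -/

/-- OSCL2: the oscillation is bounded by the Fourier coefficients prime to `3`. -/
def OscL2Statement : Prop :=
  ∀ (n : ℕ) (g : ZMod (3 ^ n) → ℝ), 1 ≤ n →
    oscf n g ≤ √(∑ ξ ∈ univ.filter (fun ξ : ZMod (3 ^ n) => ¬ 3 ∣ ξ.val),
      ‖∑ X : ZMod (3 ^ n), (g X : ℂ) * ZMod.stdAddChar (ξ * X)‖ ^ 2)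

open Classical in
/-- HEAD: oscillation of the part with heads in `F`. -/
def HeadStatement : Prop :=
  ∀ (k k' a c : ℕ) (F : Finset (Finset ℕ)) (ε : ℝ), 1 ≤ k' → a ≤ c → F ⊆ Fam k a →
    Set.InjOn (xz (3 ^ (k + k'))) (F : Set (Finset ℕ)) → 0 ≤ ε →
    (∀ ζ : ZMod (3 ^ k'), ¬ 3 ∣ ζ.val → ‖Fc k' (c - a) ζ‖ ≤ ε) →
    oscf (k + k') (fun X => (((F ×ˢ Fam k' (c - a)).filter
      fun p => xz (3 ^ (k + k')) (cat a p.1 p.2) = X).card : ℝ) / 2 ^ c) ≤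
      ε * √(3 ^ (k + k') * F.card) / 2 ^ a

/-- INJ: heads with small numerators are determined by their residues. -/
def InjStatement : Prop :=
  ∀ (n k a : ℕ) (A A' : Finset ℕ), A ∈ Fam k a → A' ∈ Fam k a →
    2 ^ a * xr A < 3 ^ n → 2 ^ a * xr A' < 3 ^ n → xz (3 ^ n) A = xz (3 ^ n) A' → A = A'

/-- TYP: the four estimates for the exceptional words. -/
def TypStatement : Prop :=
  (∀ (n h b c₁ : ℕ) (z : ℝ), h ≤ n → 1 < z →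
    ∑ c ∈ range c₁, (((Fam n c).filter fun S => h ≤ (S.filter (· ≤ b)).card).card : ℝ) / 2 ^ c ≤
      z ^ b / (2 * z - 1) ^ h) ∧
  (∀ n b t c₁ : ℕ,
    ∑ c ∈ range c₁, (((Fam n c).filter fun S => (S.filter (· ≤ b + t)).card < n ∧
      (S.filter (· ≤ b + t)).card = (S.filter (· ≤ b)).card).card : ℝ) / 2 ^ c ≤ 1 / 2 ^ t) ∧
  (∀ (n c₁ : ℕ) (x : ℝ), 0 < x →
    ∑ c ∈ range c₁, (((Fam n c).filter fun S => x ≤ xr S).card : ℝ) / 2 ^ c ≤ n / (3 * x)) ∧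
  (∀ n c₂ c₁ : ℕ,
    ∑ c ∈ Ico c₂ c₁, ((Fam n c).card : ℝ) / 2 ^ c ≤ 3 ^ n / (3 / 2 : ℝ) ^ c₂)

/-- JCORE: decomposition of the joint oscillation according to the first element above `b`. -/
def JcoreStatement : Prop :=
  ∀ (n b t h c₂ c₁ : ℕ) (x ε : ℝ), 1 ≤ h → h < n → 0 < x → 0 ≤ ε → x * 2 ^ (b + t) ≤ 3 ^ n →
    (∀ (k' c' : ℕ) (ζ : ZMod (3 ^ k')), n - h ≤ k' → k' ≤ n → ¬ 3 ∣ ζ.val → ‖Fc k' c' ζ‖ ≤ ε) →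
    Josc n c₁ ≤ 2 * ((8 / 7 : ℝ) ^ b / (9 / 7 : ℝ) ^ h + 1 / 2 ^ t + n / (3 * x) +
      3 ^ n / (3 / 2 : ℝ) ^ c₂) + c₂ * (h * (t * (ε * √(3 ^ n / 2 ^ b))))

/-- JOSC: polynomial decay of the joint oscillation. -/
def JoscStatement : Prop :=
  ∀ A : ℕ, ∃ C : ℝ, 0 < C ∧ ∀ n c₁ : ℕ, 1 ≤ n → Josc n c₁ ≤ C / (n : ℝ) ^ A

/-! ### Group M : from `3 ^ s` to `3 ^ m` -/

/-- PSPLIT. -/
def PsplitStatement : Prop :=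
  ∀ (k i s : ℕ) (M : ℤ), k ≤ s →
    Pc k i s M = ∑ c ∈ range (i + 1), f k c (M : ZMod (3 ^ k)) *
      (((i - c).choose (s - k) : ℝ) / 2 ^ (i - c))

/-- STEP: one level. -/
def StepStatement : Prop :=
  ∀ (d : Bool) (k i s : ℕ) (W : Finset ℕ) (ω : ℕ → ℝ) (Ω : ℝ), 1 ≤ k → k ≤ s →
    (∀ M ∈ W, 0 ≤ ω M) → (∀ r, ∑ M ∈ W.filter (fun M => M % 3 ^ k = r), ω M ≤ Ω / 3 ^ k) →
    ∑ M ∈ W, ω M * |3 ^ k * Pc k i s (sg d * M) - 3 ^ (k - 1) * Pc (k - 1) i s (sg d * M)| ≤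
      Ω * Josc k (i + 1)

/-- MIX. -/
def MixStatement : Prop :=
  ∀ (d : Bool) (m i s k l : ℕ), m ≤ s → 3 ^ s ≤ 2 ^ k →
    ∑ M ∈ blk k l, 1 / (M : ℝ) *
        |3 ^ s * Pc s i s (sg d * M) - 3 ^ m * Pc m i s (sg d * M)| ≤
      ((l : ℝ) + 1) * ∑ n ∈ Ioc m s, Josc n (i + 1)

/-- PHI: total masses. -/
def PhiStatement : Prop :=
  (∀ (m i : ℕ) (M : ℤ),
    ∑ s ∈ Icc m i, Pc m i s M = ∑ c ∈ range (i + 1), f m c (M : ZMod (3 ^ m))) ∧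
  (∀ (d : Bool) (m c k l : ℕ), 3 ^ m ≤ 2 ^ k →
    ∑ M ∈ blk k l, 1 / (M : ℝ) * (3 ^ m * f m c ((sg d * M : ℤ) : ZMod (3 ^ m))) ≤
      ((l : ℝ) + 1) * (((Fam m c).card : ℝ) / 2 ^ c)) ∧
  (∀ (d : Bool) (m i s k l : ℕ), 3 ^ m ≤ 2 ^ k →
    ∑ M ∈ blk k l, 1 / (M : ℝ) * (3 ^ m * Pc m i s (sg d * M)) ≤
      ((l : ℝ) + 1) * ((i.choose s : ℝ) / 2 ^ i)) ∧
  (∀ (d : Bool) (m k l : ℕ), 3 ^ m ≤ 2 ^ k →
    ∑ M ∈ blk k l, 1 / (M : ℝ) * Phi m (sg d * M) ≤ (l : ℝ) + 1) ∧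
  (∀ (m : ℕ) (M : ℤ), 0 ≤ Phi m M)

/-- GPHI: the density of the image is close to `Phi m`. -/
def GphiStatement : Prop :=
  ∀ (d : Bool) (i D m k l : ℕ), 4 * m ≤ i → (∀ s ∈ typ i D, m ≤ s ∧ 3 ^ s ≤ 2 ^ k) →
    3 ^ m ≤ 2 ^ k →
    ∑ M ∈ blk k l, 1 / (M : ℝ) * |G i D (sg d * M) - Phi m (sg d * M)| ≤
      ((l : ℝ) + 1) * (∑ s ∈ typ i D, ∑ n ∈ Ioc m s, Josc n (i + 1) +
        2 * Real.exp (-((D : ℝ) ^ 2 / (2 * i))) + (3 / 5 : ℝ) ^ m)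

/-! ### Group T : dynamics -/

/-- PATH: the trajectory stays close to the line. -/
def PathStatement : Prop :=
  ∀ (d : Bool) (N j D a : ℕ), 2 ^ a ≤ N → j + 1 ≤ a → |2 * (od d j N : ℝ) - j| ≤ D →
    (N : ℝ) / 2 * (2 : ℝ) ^ (-(mu * j) - th * D / 2) ≤ ((T d)^[j] N : ℝ) ∧
    ((T d)^[j] N : ℝ) ≤ 2 * (N : ℝ) * (2 : ℝ) ^ (-(mu * j) + th * D / 2)

open Classical in
/-- UPPER: upper bound for the image of the logarithmic measure. -/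
def UpperStatement : Prop :=
  ∀ (d : Bool) (a l i k D : ℕ) (x : ℝ) (B : Set ℕ), 2 ≤ D → i + 1 ≤ a → 2 * D ≤ k →
    |(a : ℝ) - mu * i - k| ≤ 1 → 0 ≤ x → x ≤ 1 / 2 →
    (∀ s ∈ typ i D, (3 : ℝ) ^ s ≤ x * 2 ^ (k - 2 * D)) →
    ∑ N ∈ (blk a l).filter
        (fun N => |2 * (od d i N : ℝ) - i| ≤ D ∧ (T d)^[i] N ∈ B), (1 : ℝ) / N ≤
      (1 + 2 * x) * ∑ M ∈ (blk (k - 2 * D) (l + 4 * D)).filter (fun M => M ∈ B),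
        1 / (M : ℝ) * G i D (sg d * M)

open Classical in
/-- LOWER: lower bound for the image of the logarithmic measure. -/
def LowerStatement : Prop :=
  ∀ (d : Bool) (a l i k D : ℕ) (x : ℝ) (B : Set ℕ), 2 ≤ D → i + 1 ≤ a → 2 * D ≤ k →
    |(a : ℝ) - mu * i - k| ≤ 1 → 0 ≤ x → x ≤ 1 / 2 →
    (∀ s ∈ typ i D, (3 : ℝ) ^ s ≤ x * 2 ^ (k - 2 * D)) →
    (1 - x) * ∑ M ∈ (blk (k + 2 * D) (l - 4 * D)).filter (fun M => M ∈ B),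
        1 / (M : ℝ) * G i D (sg d * M) ≤
      ∑ N ∈ (blk a l).filter
        (fun N => |2 * (od d i N : ℝ) - i| ≤ D ∧ (T d)^[i] N ∈ B), (1 : ℝ) / N

/-- LOGWIN: fixed-time transfer between logarithmic windows. -/
def LogWinStatement : Prop :=
  ∃ (C : ℝ) (K₀ : ℕ), 0 < C ∧ ∀ (d : Bool) (K a l i m k : ℕ) (B : Set ℕ), K₀ ≤ K → K ≤ k →
    a ≤ 2 * K → l ≤ K → |(a : ℝ) - mu * i - k| ≤ 1 → 10 * i ≤ 9 * a → 5 * m ≤ i → K ≤ 100 * m →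
    Inv d B (k - 2 * dev K) (2 ^ (a + l + 2 * dev K)) →
    |Alog B a l - Psi d B m k l| ≤ C * dev K

open Classical in
/-- UBD: upper bound for the image of the uniform measure on a dyadic block. -/
def UbdStatement : Prop :=
  ∀ (d : Bool) (L i D : ℕ) (W : Finset ℕ), i + 1 ≤ L →
    (((Ico (2 ^ L) (2 ^ (L + 1))).filter
      (fun N => |2 * (od d i N : ℝ) - i| ≤ D ∧ (T d)^[i] N ∈ W)).card : ℝ) ≤
    2 ^ (L + 2) * ∑ M ∈ W, 1 / (M : ℝ) * ∑ s ∈ (typ i D).filter (fun s : ℕ =>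
      (L : ℝ) - 1 ≤ Real.logb 2 M + i - th * s ∧ Real.logb 2 M + i - th * s < L + 2),
        3 ^ s * Pc s i s (sg d * M)

/-- DOM: domination of the uniform measure by the weighted logarithmic measure. -/
def DomStatement : Prop :=
  ∃ (C : ℝ) (L₀ : ℕ), 0 < C ∧ ∀ (d : Bool) (L : ℕ) (B : Set ℕ), L₀ ≤ L →
    ({N : ℕ | 2 ^ L ≤ N ∧ N < 2 ^ (L + 1) ∧ ∀ i ≤ L, (T d)^[i] N ∈ B}.ncard : ℝ) ≤
      2 ^ L * (C / L) * (1 + Psi d B (L / 20) (84 * L / 100) (5 * L / 100))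

/-- SHIFT: almost invariance of the logarithmic masses. -/
def ShiftStatement : Prop :=
  ∃ (C : ℝ) (x₀ : ℕ), 0 < C ∧ ∀ (d : Bool) (x a a' l h : ℕ) (B : Set ℕ), x₀ ≤ x → x ≤ a →
    x ≤ a' → 8 * a ≤ 9 * x → 8 * a' ≤ 9 * x → 10 * l ≤ x → a + l + x / 100 ≤ h →
    a' + l + x / 100 ≤ h → Inv d B (9 * x / 10) (2 ^ h) →
    |Alog B a l - Alog B a' l| ≤ C * (x : ℝ) ^ (3 / 5 : ℝ)

/-- CHAIN: comparison of two far apart windows. -/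
def ChainStatement : Prop :=
  ∃ (C : ℝ) (p₀ : ℕ), 0 < C ∧ ∀ (d : Bool) (p₁ p h : ℕ) (B : Set ℕ), p₀ ≤ p₁ → p₁ ≤ p →
    2 ^ (p + 10) + 2 ^ (p + 5) ≤ h → Inv d B (2 ^ (p₁ + 8)) (2 ^ h) →
    Alog B (2 ^ (p + 10)) (2 ^ p) / 2 ^ p ≤ Alog B (2 ^ (p₁ + 9)) (2 ^ p₁) / 2 ^ p₁ +
      C * (2 : ℝ) ^ (-(2 / 5 * (p₁ : ℝ)))

/-- TOP: the weighted mass in DOM is bounded by one logarithmic window. -/
def TopStatement : Prop :=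
  ∃ (C : ℝ) (L₀ : ℕ), 0 < C ∧ ∀ (d : Bool) (L p : ℕ) (B : Set ℕ), L₀ ≤ L →
    10 * 2 ^ (p + 10) ≤ 9 * L → 9 * L < 10 * 2 ^ (p + 11) → Inv d B (2 ^ (p + 9)) (2 ^ L) →
    Psi d B (L / 20) (84 * L / 100) (5 * L / 100) ≤
      C * (Alog B (2 ^ (p + 10)) (2 ^ p) + (L : ℝ) ^ (3 / 5 : ℝ))

/-- DESC: Descent (helper89 for `d = true`, its port for `d = false`) and the reach bound. -/
def DescStatement (d : Bool) : Prop :=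
  (∀ (L : ℕ) (lam : ℝ), 1 ≤ lam → ((Reach d L lam).ncard : ℝ) ≤ 2 * 2 ^ L / lam) ∧
  (∃ δ C : ℝ, 0 < δ ∧ δ ≤ 1 ∧ 0 < C ∧ ∀ (L : ℕ) (y lam : ℝ), 1 ≤ L → 1 ≤ y → y ^ 2 ≤ 2 ^ L →
    1 ≤ lam → ((Fail d L y lam).ncard : ℝ) ≤ 2 * 2 ^ L / lam + C * L * 2 ^ L / y ^ δ)

/-- BOTTOM: the invariance of `Bad`, and the bound from the descent theorem. -/
def BottomStatement (d : Bool) : Prop :=
  (∀ (y H : ℝ) (lo : ℕ), y ≤ 2 ^ lo → Inv d (Bad d y H) lo H) ∧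
  (∀ (L : ℕ) (y lam : ℝ), 0 ≤ lam → Fail d L y lam ⊆ Reach d L lam ∪
    {N : ℕ | 2 ^ L ≤ N ∧ N < 2 ^ (L + 1) ∧ ∀ i ≤ L, (T d)^[i] N ∈ Bad d y (lam * 2 ^ L)}) ∧
  (∃ δ C : ℝ, 0 < δ ∧ 0 < C ∧ ∀ (a l : ℕ) (y H : ℝ), 1 ≤ a → 1 ≤ y → y ^ 2 ≤ 2 ^ a →
    2 ^ (a + l) ≤ H →
    Alog (Bad d y H) a l ≤ l * (2 * 2 ^ (a + l) / H + C * ((a : ℝ) + l) / y ^ δ))

/-- FINAL: the theorem for a dyadic block. -/
def FinalStatement (d : Bool) : Prop :=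
  ∃ c C : ℝ, 0 < c ∧ 0 < C ∧ ∀ (L : ℕ) (y lam : ℝ), 1 ≤ L → 1 ≤ y → 1 ≤ lam →
    ((Fail d L y lam).ncard : ℝ) ≤ (2 / lam + C / y ^ c) * 2 ^ L

/-- DENSITY: natural density and the corollaries. -/
def DensityStatement (d : Bool) : Prop :=
  (∀ g : ℕ → ℝ, Filter.Tendsto g Filter.atTop Filter.atTop →
    Filter.Tendsto (fun N : ℕ => ({n : ℕ | n < N ∧ ∀ k, g n ≤ ((T d)^[k] n : ℝ)}.ncard : ℝ) / N)
      Filter.atTop (nhds 0)) ∧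
  (∃ c C : ℝ, 0 < c ∧ 0 < C ∧ ∀ x y : ℝ, 1 ≤ x → 1 ≤ y →
    ({n : ℕ | (n : ℝ) ≤ x ∧ ∀ k, y ≤ ((T d)^[k] n : ℝ)}.ncard : ℝ) ≤ C * x / y ^ c)

/-- MAXEXC: typical size of the maximum excursion. -/
def MaxExcStatement (d : Bool) : Prop :=
  (∀ n, ∃ R : ℕ, ∀ k, (T d)^[k] n ≤ R) → ∀ lam ε : ℝ, 1 ≤ lam → 0 < ε → ∃ L₀ : ℕ, ∀ L, L₀ ≤ L →
    ({n : ℕ | 2 ^ L ≤ n ∧ n < 2 ^ (L + 1) ∧ ∃ k, lam * n ≤ ((T d)^[k] n : ℝ)}.ncard : ℝ) ≤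
      (2 / lam + ε) * 2 ^ L

/-- The 3x+1 map on the integers. -/
def TZ (x : ℤ) : ℤ := if x % 2 = 0 then x / 2 else (3 * x + 1) / 2

/-- ZCYC: on the integers, the basins of all cycles avoiding `[-y, y]`, together with all unbounded
trajectories avoiding `[-y, y]`, are small. -/
def ZcycStatement : Prop :=
  ∃ c C : ℝ, 0 < c ∧ 0 < C ∧ ∀ X y : ℝ, 1 ≤ X → 1 ≤ y →
    ({x : ℤ | |(x : ℝ)| ≤ X ∧ ∀ k, y ≤ |((TZ^[k] x : ℤ) : ℝ)|}.ncard : ℝ) ≤ C * X / y ^ c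

end Pool.Agent.Lib.MP_0a5adf_nt.TP
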