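import Pool.Agent.Lib.MP_0a5adf_nt.TP.Main
import Pool.Agent.Lib.MP_0a5adf_nt.H51.Dom

/-!
Project TAO+ : the final theorem.
-/

set_option autoImplicit false

namespace Pool.Agent.Lib.MP_0a5adf_nt.TP

theorem domT : DomStatement :=
  H51.dom ubdT pathT badnT mixT psplitT phiT H51.visits joscT massT

/-- **The theorem for dyadic blocks**, for the 3x+1 map (`d = true`) and the 3x-1 map. -/
theorem finalT (d : Bool) : FinalStatement d :=
  TP.H11.final domT topT chainT d (bottomT d) (descT d)

theorem densityT (d : Bool) : DensityStatement d := H1.density d (finalT d)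

/-- **The theorem on all integers.** -/
theorem zcycT : ZcycStatement := H38.zcyc (densityT true) (densityT false)

end Pool.Agent.Lib.MP_0a5adf_nt.TP
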