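import Pool.Agent.Lib.MP_0a5adf_nt.H11.Final
import Pool.Agent.Lib.MP_0a5adf_nt.H60.Jcore
import Pool.Agent.Lib.MP_0a5adf_nt.H51.Visits
import Pool.Agent.Lib.MP_0a5adf_nt.H19.Head
import Pool.Agent.Lib.MP_0a5adf_nt.H19.Shift
import Pool.Agent.Lib.MP_0a5adf_nt.H50.Top
import Pool.Agent.Lib.MP_0a5adf_nt.H55.Transfer
import Pool.Agent.Lib.MP_0a5adf_nt.H37.Cat
import Pool.Agent.Lib.MP_0a5adf_nt.H37.Mix
import Pool.Agent.Lib.MP_0a5adf_nt.H37.Phi
import Pool.Agent.Lib.MP_0a5adf_nt.H61.Gphi
import Pool.Agent.Lib.MP_0a5adf_nt.H58.Res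
import Pool.Agent.Lib.MP_0a5adf_nt.H69.OscL2
import Pool.Agent.Lib.MP_0a5adf_nt.H87.Badn
import Pool.Agent.Lib.MP_0a5adf_nt.H16.Bottom
import Pool.Agent.Lib.MP_0a5adf_nt.H1.Density
import Pool.Agent.Lib.MP_0a5adf_nt.H38.Zcyc
import Pool.Agent.Lib.MP_0a5adf_nt.H42.MAXEXC
import Pool.Agent.Lib.MP_0a5adf_nt.H82.Path
import Pool.Agent.Lib.MP_0a5adf_nt.H21.CntPar
import Pool.Agent.Lib.MP_0a5adf_nt.H21.Inj
import Pool.Agent.Lib.MP_0a5adf_nt.H30.Dyn
import Pool.Agent.Lib.MP_0a5adf_nt.H15.Hoeff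
import Pool.Agent.Lib.MP_0a5adf_nt.H24.Split
import Pool.Agent.Lib.MP_0a5adf_nt.H26.Mass
import Pool.Agent.Lib.MP_0a5adf_nt.H26.Handin
import Pool.Agent.Lib.MP_0a5adf_nt.H93.Tp
import Pool.Agent.Lib.MP_0a5adf_nt.H53.TYP
import Pool.Agent.Lib.MP_0a5adf_nt.TAO.H2.Descp
import Pool.Agent.Lib.MP_0a5adf_nt.TAO.H2.Josc
import Pool.Agent.Lib.MP_0a5adf_nt.H60.LogWin
import Pool.Agent.Lib.MP_0a5adf_nt.H32.DescM

/-!
Project TAO+ : assembly.
-/

set_option autoImplicit false

namespace Pool.Agent.Lib.MP_0a5adf_nt.TP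

theorem massT : MassStatement := H26.mass H24.famsplit

theorem hexpT : HexpStatement := H26.hexp H24.famsplit H37.catSt massT

theorem typT : TypStatement := TP.H53.typ H24.famsplit massT hexpT H37.catSt

theorem injT : InjStatement := H21.inj H30.dyn

theorem headT : HeadStatement := H19.head TP.H69.oscL2 H37.catSt

theorem jcoreT : JcoreStatement := TP.H60.jcore H24.famsplit H37.catSt headT injT typT

theorem joscT : JoscStatement := TAO.H2.josc jcoreT H93.fourier massT

theorem psplitT : PsplitStatement := H37.psplit H24.powsplit H37.catSt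

theorem mixT : MixStatement := H37.mix (H37.step psplitT) H58.res

theorem phiT : PhiStatement := H37.phi psplitT H58.res massT

theorem gphiT : GphiStatement := TP.H61.gphi mixT phiT TP.H15.hoeff massT

theorem cntParT : CntParStatement := H21.cntPar H30.dyn

theorem badnT : BadNStatement := H87.badn cntParT H30.dyn TP.H15.hoeff

theorem pathT : PathStatement := H82.path H30.dyn

theorem upperT : UpperStatement := H55.upper H30.dyn pathT

theorem lowerT : LowerStatement := H55.lower H30.dyn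

theorem ubdT : UbdStatement := H55.ubd H30.dyn

theorem logwinT : LogWinStatement :=
  TP.H60.logwin pathT upperT lowerT badnT gphiT phiT joscT

theorem shiftT : ShiftStatement := H19.shift logwinT

theorem chainT : ChainStatement := H19.chain shiftT

theorem topT : TopStatement := H50.top logwinT shiftT

theorem descT (d : Bool) : DescStatement d := by
  cases d
  · exact H32.descM
  · exact TAO.H2.descp

theorem bottomT (d : Bool) : BottomStatement d := TP.H16.bottom d (descT d)

end Pool.Agent.Lib.MP_0a5adf_nt.TP
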