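import Mathlib

/-!
Project TAO+ : definitions.

`T true` is the 3x+1 map, `T false` the 3x-1 map (that is, the 3x+1 map on the negative integers).
Finite sets `S` of positive integers stand for the set of the odd steps among the first `i` steps of
a trajectory, counted from the end (`1` is the last step, `i` the first one).
-/

set_option autoImplicit false

namespace Pool.Agent.Lib.MP_0a5adf_nt.TP

open Finset

/-! ### The maps -/

/-- `T true`: `n / 2` or `(3 n + 1) / 2`; `T false`: `n / 2` or `(3 n - 1) / 2`. -/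
def T (d : Bool) (n : ℕ) : ℕ :=
  if n % 2 = 0 then n / 2 else if d then (3 * n + 1) / 2 else (3 * n - 1) / 2

/-- The sign. -/
def sg (d : Bool) : ℤ := if d then 1 else -1

/-- Number of odd terms among the first `k` terms of the trajectory of `n`. -/
def od (d : Bool) (k n : ℕ) : ℕ := ∑ i ∈ range k, ((T d)^[i] n) % 2

/-- `log_2 3`. -/
noncomputable def th : ℝ := Real.logb 2 3

/-- The drift `1 - (log_2 3) / 2 = 0.2075...`. -/
noncomputable def mu : ℝ := 1 - th / 2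

/-! ### Words -/

/-- Number of elements of `S` below `x`. -/
def rk (S : Finset ℕ) (x : ℕ) : ℕ := (S.filter fun y => y < x).card

/-- Concatenation: `A` followed by `B` shifted by `a`. -/
def cat (a : ℕ) (A B : Finset ℕ) : Finset ℕ := A ∪ B.map (addLeftEmbedding a)

/-- Sets of `n` positive integers with maximum `c` (`{∅}` for `n = c = 0`). -/
def Fam (n c : ℕ) : Finset (Finset ℕ) :=
  (powersetCard n (Icc 1 c)).filter fun S => S.sup id = c

/-- The residue `X(S) = ∑ 3 ^ rk x / 2 ^ x` modulo `q` (`q` odd). -/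
noncomputable def xz (q : ℕ) (S : Finset ℕ) : ZMod q :=
  ∑ x ∈ S, 3 ^ rk S x * (2 : ZMod q)⁻¹ ^ x

/-- The real number `∑ 3 ^ rk x / 2 ^ x`. -/
noncomputable def xr (S : Finset ℕ) : ℝ := ∑ x ∈ S, (3 : ℝ) ^ rk S x / 2 ^ x

/-- The numerator `2 ^ i * X(S)`. -/
def num (i : ℕ) (S : Finset ℕ) : ℕ := ∑ x ∈ S, 3 ^ rk S x * 2 ^ (i - x)

/-- The odd steps among the first `i` steps of the trajectory of `N`, counted from the end. -/
def par (d : Bool) (N i : ℕ) : Finset ℕ := (Icc 1 i).filter fun x => ((T d)^[i - x] N) % 2 = 1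

/-! ### The laws -/

open Classical in
/-- `f n c X`: mass of the words with `n` elements and maximum `c` whose residue modulo `3 ^ n`
is `X`. -/
noncomputable def f (n c : ℕ) (X : ZMod (3 ^ n)) : ℝ :=
  (((Fam n c).filter fun S => xz (3 ^ n) S = X).card : ℝ) / 2 ^ c

/-- `g` minus its average over the cosets of `3 ^ (n - 1)`, summed in absolute value. -/
noncomputable def oscf (n : ℕ) (g : ZMod (3 ^ n) → ℝ) : ℝ :=
  ∑ X : ZMod (3 ^ n), |g X - (g X + g (X + 3 ^ (n - 1)) + g (X + 2 * 3 ^ (n - 1))) / 3|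

/-- The joint oscillation up to `c1`. -/
noncomputable def Josc (n c1 : ℕ) : ℝ := ∑ c ∈ range c1, oscf n (f n c)

/-- Fourier coefficients. -/
noncomputable def Fc (n c : ℕ) (ξ : ZMod (3 ^ n)) : ℂ :=
  (∑ S ∈ Fam n c, ZMod.stdAddChar (ξ * xz (3 ^ n) S)) / 2 ^ c

open Classical in
/-- Proportion of the subsets `S` of `[1, i]` with `s` elements and residue `M` modulo `3 ^ k`. -/
noncomputable def Pc (k i s : ℕ) (M : ℤ) : ℝ :=
  (((powersetCard s (Icc 1 i)).filter fun S => xz (3 ^ k) S = (M : ZMod (3 ^ k))).card : ℝ) / 2 ^ i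

/-- The limiting density modulo `3 ^ m`, truncated. -/
noncomputable def Phi (m : ℕ) (M : ℤ) : ℝ :=
  3 ^ m * ∑ c ∈ range (4 * m + 1), f m c (M : ZMod (3 ^ m))

/-- The signed residues attached to the frequency `ξ`. -/
noncomputable def rho (J : ℕ) (ξ : ZMod (3 ^ (2 * J))) (j l : ℕ) : ℤ :=
  (9 ^ j * 2 * ξ * (2 : ZMod (3 ^ (2 * J)))⁻¹ ^ l).valMinAbs

/-! ### Dynamics -/

/-- The integers of `[2 ^ k, 2 ^ (k + l))`. -/
def blk (k l : ℕ) : Finset ℕ := Ico (2 ^ k) (2 ^ (k + l))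

/-- The deviation scale `K ^ (3/5)`. -/
noncomputable def dev (K : ℕ) : ℕ := ⌈(K : ℝ) ^ (3 / 5 : ℝ)⌉₊

/-- The typical numbers of odd steps. -/
noncomputable def typ (i D : ℕ) : Finset ℕ :=
  (range (i + 1)).filter fun s : ℕ => |2 * (s : ℝ) - i| ≤ D

/-- The density of the image after `i` steps. -/
noncomputable def G (i D : ℕ) (M : ℤ) : ℝ := ∑ s ∈ typ i D, 3 ^ s * Pc s i s M

/-- `B` is invariant under the trajectory between heights `2 ^ lo` and `H`. -/
def Inv (d : Bool) (B : Set ℕ) (lo : ℕ) (H : ℝ) : Prop :=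
  ∀ n : ℕ, 2 ^ lo ≤ n → (n : ℝ) < H → (n ∈ B ↔ T d n ∈ B)

open Classical in
/-- Logarithmic mass of `B` in `[2 ^ a, 2 ^ (a + l))`. -/
noncomputable def Alog (B : Set ℕ) (a l : ℕ) : ℝ :=
  ∑ N ∈ (blk a l).filter (fun N => N ∈ B), (1 : ℝ) / N

open Classical in
/-- Weighted logarithmic mass of `B` in `[2 ^ k, 2 ^ (k + l))`. -/
noncomputable def Psi (d : Bool) (B : Set ℕ) (m k l : ℕ) : ℝ :=
  ∑ M ∈ (blk k l).filter (fun M => M ∈ B), 1 / (M : ℝ) * Phi m (sg d * M)

/-- The numbers whose trajectory does not fall below `y` before reaching `H`. -/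
def Bad (d : Bool) (y H : ℝ) : Set ℕ :=
  {n : ℕ | ¬ ∃ k : ℕ, ((T d)^[k] n : ℝ) < y ∧ ∀ j < k, ((T d)^[j] n : ℝ) < H}

/-- The numbers `n` of `[2 ^ L, 2 ^ (L + 1))` whose trajectory does not fall below `y` before
reaching `lam * n`. -/
def Fail (d : Bool) (L : ℕ) (y lam : ℝ) : Set ℕ :=
  {n : ℕ | 2 ^ L ≤ n ∧ n < 2 ^ (L + 1) ∧
    ¬ ∃ k : ℕ, ((T d)^[k] n : ℝ) < y ∧ ∀ j < k, ((T d)^[j] n : ℝ) < lam * n}

/-- The numbers in the dyadic block whose trajectory reaches `lam * n` within `L` steps. -/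
def Reach (d : Bool) (L : ℕ) (lam : ℝ) : Set ℕ :=
  {n : ℕ | 2 ^ L ≤ n ∧ n < 2 ^ (L + 1) ∧ ∃ k ≤ L, lam * n ≤ ((T d)^[k] n : ℝ)}

end Pool.Agent.Lib.MP_0a5adf_nt.TP
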